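import Mathlib

/-!
# Highly connected monochromatic sets with paths of length at most two

If a set `K` of uncountable cardinality `κ` carries a proper `κ`-complete ideal containing all
sets of size `< κ` whose positive sets have a dense family closed under decreasing
`ω`-sequences, then `κ →_{hc,<3} (κ)²_ω`.
-/

open Cardinal Set

universe u

namespace Pool.Agent.Results.MP_54de64_lc.CompleteIdealPathsOfLengthTwo

/-- `#K →_{hc,<n} (#K)²_ω`: for every colouring `c` of the unordered pairs from `K` with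
countably many colours there are `A ⊆ K` of size `#K` and a colour `i` such that, after deleting
any set `C ⊆ A` of size `< #K`, any two points `a, b` of `A \ C` are joined inside `A \ C` by a
path with `l < n` edges, all of colour `i`. -/
def HCLT (K : Type u) (n : ℕ) : Prop :=
  ∀ c : Sym2 K → ℕ, ∃ (A : Set K) (i : ℕ), #A = #K ∧
    ∀ C : Set K, C ⊆ A → #C < #K → ∀ a ∈ A \ C, ∀ b ∈ A \ C,
      ∃ l < n, ∃ g : ℕ → K, g 0 = a ∧ g l = b ∧ (∀ k ≤ l, g k ∈ A \ C) ∧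
        ∀ j < l, g j ≠ g (j + 1) ∧ c s(g j, g (j + 1)) = i

/-- `I` is a proper ideal of subsets of `K`, closed under unions of fewer than `#K` many
members, and containing every set of size `< #K`. -/
structure IsCompleteUniformIdeal {K : Type u} (I : Set (Set K)) : Prop where
  down : ∀ S ∈ I, ∀ T ⊆ S, T ∈ I
  proper : (Set.univ : Set K) ∉ I
  complete : ∀ 𝒮 : Set (Set K), #𝒮 < #K → 𝒮 ⊆ I → ⋃₀ 𝒮 ∈ I
  uniform : ∀ S : Set K, #S < #K → S ∈ I

/-- `D` is a family of `I`-positive sets, dense in the `I`-positive sets under inclusion, in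
which every `⊆`-decreasing `ω`-sequence has a lower bound. -/
structure IsSigmaClosedDense {K : Type u} (I D : Set (Set K)) : Prop where
  pos : ∀ d ∈ D, d ∉ I
  dense : ∀ S, S ∉ I → ∃ d ∈ D, d ⊆ S
  closed : ∀ f : ℕ → Set K, (∀ n, f n ∈ D) → (∀ n, f (n + 1) ⊆ f n) → ∃ d ∈ D, ∀ n, d ⊆ f n

/-! ## Recursion -/

theorem exists_rec {W : Type*} [LinearOrder W] [WellFoundedLT W] {T : Type*} [Inhabited T]
    (Step : (ζ : W) → (∀ x < ζ, T) → T → Prop)
    (h : ∀ ζ (a : ∀ x < ζ, T),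
      (∀ ζ' (h : ζ' < ζ), Step ζ' (fun x hx => a x (hx.trans h)) (a ζ' h)) →
        ∃ z, Step ζ a z) :
    ∃ a : W → T, ∀ ζ, Step ζ (fun x _ => a x) (a ζ) := by
  classical
  let F : (ζ : W) → (∀ x, x < ζ → T) → T := fun ζ a =>
    if h : ∃ z, Step ζ a z then h.choose else default
  let a : W → T := (wellFounded_lt (α := W)).fix F
  have ha : ∀ ζ, a ζ = F ζ (fun x _ => a x) := fun ζ => (wellFounded_lt (α := W)).fix_eq F ζ
  refine ⟨a, fun ζ => ?_⟩
  induction ζ using WellFoundedLT.induction with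
  | _ ζ ih =>
    have hz : ∃ z, Step ζ (fun x _ => a x) z := h ζ (fun x _ => a x) ih
    rw [ha ζ]
    simp only [F]
    rw [dif_pos hz]
    exact hz.choose_spec

section main

variable {K : Type u} {I D : Set (Set K)}

lemma countable_union (hI : IsCompleteUniformIdeal I) (hK : ℵ₀ < #K) {ι : Type*} [Countable ι]
    (S : ι → Set K) (hS : ∀ i, S i ∈ I) : (⋃ i, S i) ∈ I := by
  rw [← sUnion_range]
  refine hI.complete _ ?_ ?_
  · exact (Cardinal.mk_le_aleph0_iff.2 (countable_range S).to_subtype).trans_lt hK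
  · rintro _ ⟨i, rfl⟩
    exact hS i

lemma union_mem (hI : IsCompleteUniformIdeal I) (hK : ℵ₀ < #K) {S T : Set K} (hS : S ∈ I)
    (hT : T ∈ I) : S ∪ T ∈ I := by
  have := countable_union hI hK (fun b : Bool => if b then S else T)
    (by rintro (_ | _) <;> simp [hS, hT])
  refine hI.down _ this _ ?_
  rintro x (hx | hx)
  · exact mem_iUnion.2 ⟨true, by simpa using hx⟩
  · exact mem_iUnion.2 ⟨false, by simpa using hx⟩

/-- the union of `< κ` many null sets is null, indexed form -/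
lemma small_union (hI : IsCompleteUniformIdeal I) {W : Type u} (s : Set W) (hs : #s < #K)
    (S : W → Set K) (hS : ∀ i ∈ s, S i ∈ I) : (⋃ i ∈ s, S i) ∈ I := by
  rw [← sUnion_image]
  refine hI.complete _ (mk_image_le.trans_lt hs) ?_
  rintro _ ⟨i, hi, rfl⟩
  exact hS i hi

/-- positive minus null is positive, and nonempty. -/
lemma exists_of_pos (hI : IsCompleteUniformIdeal I) {S T : Set K} (hS : S ∉ I)
    (hT : T ∈ I) : ∃ x ∈ S, x ∉ T := by
  by_contra hcon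
  push Not at hcon
  exact hS (hI.down _ hT _ hcon)

/-- colour `n` neighbours -/
def Nb (c : Sym2 K → ℕ) (n : ℕ) (a : K) : Set K := {x | a ≠ x ∧ c s(a, x) = n}

lemma Nb_symm {c : Sym2 K → ℕ} {n : ℕ} {a x : K} (h : x ∈ Nb c n a) : a ∈ Nb c n x :=
  ⟨h.1.symm, by rw [Sym2.eq_swap]; exact h.2⟩

lemma fact1 (hI : IsCompleteUniformIdeal I) (hK : ℵ₀ < #K) (c : Sym2 K → ℕ) {S : Set K}
    (hS : S ∉ I) (a : K) : ∃ n, S ∩ Nb c n a ∉ I := by
  by_contra hcon
  push Not at hcon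
  apply hS
  have h1 : (⋃ n, S ∩ Nb c n a) ∈ I := countable_union hI hK _ hcon
  have h2 : ({a} : Set K) ∈ I := hI.uniform _ (by
    rw [mk_singleton]; exact (one_lt_aleph0).trans hK)
  refine hI.down _ (union_mem hI hK h1 h2) _ ?_
  intro x hx
  by_cases hxa : a = x
  · exact Or.inr hxa.symm
  · exact Or.inl (mem_iUnion.2 ⟨c s(a, x), hx, hxa, rfl⟩)

/-- `Φ_n(X,q)` -/
def Phi (I D : Set (Set K)) (c : Sym2 K → ℕ) (n : ℕ) (X q : Set K) : Prop :=
  ∀ q' ∈ D, q' ⊆ q → {a ∈ X | q' ∩ Nb c n a ∈ I} ∈ I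

lemma Phi.mono (hI : IsCompleteUniformIdeal I) {c : Sym2 K → ℕ} {n : ℕ} {X q X' q' : Set K}
    (h : Phi I D c n X q) (hX : X' ⊆ X) (hq : q' ⊆ q) : Phi I D c n X' q' := by
  intro r hr hrq
  exact hI.down _ (h r hr (hrq.trans hq)) _ (fun a ha => ⟨hX ha.1, ha.2⟩)

lemma fact2 (hI : IsCompleteUniformIdeal I) (hD : IsSigmaClosedDense I D) (hK : ℵ₀ < #K)
    (c : Sym2 K → ℕ) {X q : Set K} (hX : X ∈ D) (hq : q ∈ D) :
    ∃ n, ∃ X' ∈ D, ∃ q' ∈ D, X' ⊆ X ∧ q' ⊆ q ∧ Phi I D c n X' q' := by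
  by_contra hcon
  push Not at hcon
  have step : ∀ n, ∀ p : D × D, p.1.1 ⊆ X → p.2.1 ⊆ q →
      ∃ p' : D × D, p'.1.1 ⊆ p.1.1 ∧ p'.2.1 ⊆ p.2.1 ∧ ∀ a ∈ p'.1.1, p'.2.1 ∩ Nb c n a ∈ I := by
    intro n p h1 h2
    have h := hcon n p.1.1 p.1.2 p.2.1 p.2.2 h1 h2
    unfold Phi at h
    push Not at h
    obtain ⟨q', hq', hqq, hpos⟩ := h
    obtain ⟨d, hd, hds⟩ := hD.dense _ hpos
    exact ⟨(⟨d, hd⟩, ⟨q', hq'⟩), fun a ha => (hds ha).1, hqq, fun a ha => (hds ha).2⟩
  classical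
  let f : ℕ → {p : D × D // p.1.1 ⊆ X ∧ p.2.1 ⊆ q} := fun n =>
    Nat.rec ⟨(⟨X, hX⟩, ⟨q, hq⟩), subset_rfl, subset_rfl⟩ (fun n p =>
      ⟨(step n p.1 p.2.1 p.2.2).choose,
        (step n p.1 p.2.1 p.2.2).choose_spec.1.trans p.2.1,
        (step n p.1 p.2.1 p.2.2).choose_spec.2.1.trans p.2.2⟩) n
  have hf1 : ∀ n, (f (n + 1)).1.1.1 ⊆ (f n).1.1.1 := fun n =>
    (step n (f n).1 (f n).2.1 (f n).2.2).choose_spec.1
  have hf2 : ∀ n, (f (n + 1)).1.2.1 ⊆ (f n).1.2.1 := fun n =>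
    (step n (f n).1 (f n).2.1 (f n).2.2).choose_spec.2.1
  have hf3 : ∀ n, ∀ a ∈ (f (n + 1)).1.1.1, (f (n + 1)).1.2.1 ∩ Nb c n a ∈ I := fun n =>
    (step n (f n).1 (f n).2.1 (f n).2.2).choose_spec.2.2
  obtain ⟨Xω, hXω, hXω'⟩ := hD.closed (fun n => (f n).1.1.1) (fun n => (f n).1.1.2) hf1
  obtain ⟨qω, hqω, hqω'⟩ := hD.closed (fun n => (f n).1.2.1) (fun n => (f n).1.2.2) hf2
  have hne : ∃ a, a ∈ Xω := by
    obtain ⟨a, ha, -⟩ := exists_of_pos hI (hD.pos _ hXω)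
      (hI.uniform ∅ (by rw [mk_eq_zero]; exact (zero_lt_one.trans one_lt_aleph0).trans hK))
    exact ⟨a, ha⟩
  obtain ⟨a, ha⟩ := hne
  obtain ⟨n, hn⟩ := fact1 hI hK c (hD.pos _ hqω) a
  apply hn
  exact hI.down _ (hf3 n a (hXω' (n + 1) ha)) _
    (inter_subset_inter_left _ (hqω' (n + 1)))

lemma fact3 (hI : IsCompleteUniformIdeal I) (hD : IsSigmaClosedDense I D) (hK : ℵ₀ < #K)
    (c : Sym2 K → ℕ) :
    ∃ n, ∃ qs ∈ D, ∀ q ∈ D, q ⊆ qs → ∃ X ∈ D, ∃ q' ∈ D, X ⊆ q ∧ q' ⊆ q ∧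
      Phi I D c n X q' := by
  by_contra hcon
  push Not at hcon
  obtain ⟨q₀, hq₀, -⟩ := hD.dense Set.univ hI.proper
  choose! g hg1 hg2 hg3 using hcon
  let f : ℕ → Set K := fun n => Nat.rec q₀ (fun n q => g n q) n
  have hfD : ∀ n, f n ∈ D := by
    intro n
    induction n with
    | zero => exact hq₀
    | succ n ih => exact hg1 n _ ih
  have hf : ∀ n, f (n + 1) ⊆ f n := fun n => hg2 n _ (hfD n)
  obtain ⟨qω, hqω, hqω'⟩ := hD.closed f hfD hf
  obtain ⟨n, X', hX', q', hq', h1, h2, h3⟩ := fact2 hI hD hK c hqω hqω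
  exact hg3 n (f n) (hfD n) X' hX' q' hq' (h1.trans (hqω' (n + 1))) (h2.trans (hqω' (n + 1))) h3

/-- the sequences `X_k`, `q_k` -/
lemma sequences (hI : IsCompleteUniformIdeal I) (hD : IsSigmaClosedDense I D) (hK : ℵ₀ < #K)
    (c : Sym2 K → ℕ) :
    ∃ n, ∃ X : ℕ → Set K, (∀ k, X k ∈ D) ∧
      ∀ l, ∀ k, l < k → ∀ d ∈ D, d ⊆ X k → {a ∈ X l | d ∩ Nb c n a ∈ I} ∈ I := by
  obtain ⟨n, qs, hqs, h⟩ := fact3 hI hD hK c
  choose! X hX q' hq' hXq hq'q hΦ using h
  let q : ℕ → Set K := fun k => Nat.rec qs (fun _ q => q' q) k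
  have hq : ∀ k, q k ∈ D ∧ q k ⊆ qs := by
    intro k
    induction k with
    | zero => exact ⟨hqs, subset_rfl⟩
    | succ k ih => exact ⟨hq' _ ih.1 ih.2, (hq'q _ ih.1 ih.2).trans ih.2⟩
  have hstep : ∀ k, q (k + 1) ⊆ q k := fun k => hq'q _ (hq k).1 (hq k).2
  have hanti : Antitone q := antitone_nat_of_succ_le hstep
  refine ⟨n, fun k => X (q k), fun k => hX _ (hq k).1 (hq k).2, ?_⟩
  intro l k hlk d hd hdk
  exact hΦ (q l) (hq l).1 (hq l).2 d hd
    ((hdk.trans (hXq _ (hq k).1 (hq k).2)).trans (hanti (Nat.succ_le_of_lt hlk)))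

/-- The final construction. -/
lemma build (hI : IsCompleteUniformIdeal I) (hK : ℵ₀ < #K) (c : Sym2 K → ℕ) (n : ℕ)
    (X : ℕ → Set K) (hX : ∀ k, X k ∉ I)
    (hd : ∀ k, ∀ S ⊆ X k, S ∉ I → ∀ l < k, {a ∈ X l | S ∩ Nb c n a ∈ I} ∈ I) :
    ∃ A : Set K, #A = #K ∧ ∀ a ∈ A, ∀ b ∈ A, a ≠ b → #(A ∩ (Nb c n a ∩ Nb c n b) : Set K) = #K := by
  classical
  -- the good part of `X j`
  let ok : K × ℕ → Prop := fun p => p.1 ∈ X p.2 ∧ ∀ k > p.2, X k ∩ Nb c n p.1 ∉ I
  let G : K × ℕ → K × ℕ → Prop := fun p p' =>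
    ∀ k, p.2 < k → p'.2 < k → X k ∩ (Nb c n p.1 ∩ Nb c n p'.1) ∉ I
  have Gsymm : ∀ p p', G p p' → G p' p := by
    intro p p' h k h1 h2
    rw [inter_comm (Nb c n p'.1)]
    exact h k h2 h1
  -- almost all points of `X l` are ok
  have hok : ∀ l, {y ∈ X l | ¬ ok (y, l)} ∈ I := by
    intro l
    have : (⋃ k : {k // l < k}, {y ∈ X l | X k.1 ∩ Nb c n y ∈ I}) ∈ I :=
      countable_union hI hK _ (fun k => hd k.1 _ subset_rfl (hX _) l k.2)
    refine hI.down _ this _ ?_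
    rintro y ⟨hy, hn⟩
    simp only [ok, not_and, not_forall, not_not] at hn
    obtain ⟨k, hk, hk'⟩ := hn hy
    exact mem_iUnion.2 ⟨⟨k, hk⟩, hy, hk'⟩
  -- almost all points of `X l` are related to a given ok point
  have hG : ∀ l, ∀ p, ok p → {y ∈ X l | ¬ G p (y, l)} ∈ I := by
    intro l p hp
    have : (⋃ k : {k // p.2 < k ∧ l < k}, {y ∈ X l | (X k.1 ∩ Nb c n p.1) ∩ Nb c n y ∈ I}) ∈ I :=
      countable_union hI hK _ (fun k => hd k.1 _ inter_subset_left (hp.2 _ k.2.1) l k.2.2)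
    refine hI.down _ this _ ?_
    rintro y ⟨hy, hn⟩
    simp only [G, not_forall, not_not] at hn
    obtain ⟨k, hk1, hk2, hk⟩ := hn
    exact mem_iUnion.2 ⟨⟨k, hk1, hk2⟩, hy, by rw [inter_assoc]; exact hk⟩
  let W := (#K).ord.ToType
  have hW : #W = #K := mk_ord_toType _
  have hIio : ∀ ζ : W, #(Set.Iio ζ) < #K := fun ζ =>
    (mk_Iio_lt ζ (by rw [hW, Ordinal.type_toType])).trans_eq hW
  have hWinf : ℵ₀ ≤ #W := hW ▸ hK.le
  -- bookkeeping
  have e : W ≃ (W × W) × W := by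
    refine (Cardinal.eq.1 ?_).some
    simp only [mk_prod, lift_id]
    rw [mul_eq_self hWinf, mul_eq_self hWinf]
  have hne : Nonempty K := by
    obtain ⟨a, -, -⟩ := exists_of_pos hI (hX 0)
      (hI.uniform ∅ (by rw [mk_eq_zero]; exact (zero_lt_one.trans one_lt_aleph0).trans hK))
    exact ⟨a⟩
  have : Inhabited K := ⟨hne.some⟩
  obtain ⟨a, ha⟩ := exists_rec (W := W) (T := K × ℕ) (fun ζ a z => ok z ∧
      (∀ x (hx : x < ζ), (a x hx).1 ≠ z.1 ∧ G (a x hx) z) ∧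
      (∀ (h1 : (e ζ).1.1 < ζ) (h2 : (e ζ).1.2 < ζ), (e ζ).1.1 ≠ (e ζ).1.2 →
        z.1 ∈ Nb c n (a _ h1).1 ∧ z.1 ∈ Nb c n (a _ h2).1)) (by
    intro ζ a ih
    -- the previous points are ok and pairwise related
    have hokp : ∀ x (hx : x < ζ), ok (a x hx) := fun x hx => (ih x hx).1
    have hGp : ∀ x (hx : x < ζ) y (hy : y < ζ), x ≠ y → G (a x hx) (a y hy) := by
      intro x hx y hy hxy
      rcases lt_or_gt_of_ne hxy with h | h
      · exact ((ih y hy).2.1 x h).2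
      · exact Gsymm _ _ ((ih x hx).2.1 y h).2
    -- a generic extension lemma
    have ext : ∀ l, ∀ S ⊆ X l, S ∉ I → ∃ y ∈ S, ok (y, l) ∧
        ∀ x (hx : x < ζ), (a x hx).1 ≠ y ∧ G (a x hx) (y, l) := by
      intro l S hS hpos
      let bad : Set K := {y ∈ X l | ¬ ok (y, l)} ∪
        ⋃ x ∈ Set.Iio ζ, {y | ∃ hx : x < ζ, (a x hx).1 = y ∨ (y ∈ X l ∧ ¬ G (a x hx) (y, l))}
      have hbad : bad ∈ I := by
        refine union_mem hI hK (hok l) (small_union hI _ (hIio ζ) _ ?_)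
        intro x hx
        have hx' : x < ζ := hx
        refine hI.down _ (union_mem hI hK (S := {(a x hx').1})
          (T := {y ∈ X l | ¬ G (a x hx') (y, l)}) ?_ (hG l _ (hokp x hx'))) _ ?_
        · exact hI.uniform _ (by rw [mk_singleton]; exact (one_lt_aleph0).trans hK)
        · rintro y ⟨_, hy | hy⟩
          · exact Or.inl hy.symm
          · exact Or.inr hy
      obtain ⟨y, hyS, hyb⟩ := exists_of_pos hI hpos hbad
      simp only [bad, mem_union, mem_ofPred_eq, mem_iUnion, not_or, not_exists, not_and,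
        mem_Iio, not_not] at hyb
      refine ⟨y, hyS, hyb.1 (hS hyS), fun x hx => ⟨(hyb.2 x hx hx).1, ?_⟩⟩
      exact (hyb.2 x hx hx).2 (hS hyS)
    by_cases hcase : ∃ (h1 : (e ζ).1.1 < ζ) (h2 : (e ζ).1.2 < ζ), (e ζ).1.1 ≠ (e ζ).1.2
    · obtain ⟨h1, h2, h12⟩ := hcase
      set p := a _ h1
      set p' := a _ h2
      have hg : G p p' := hGp _ h1 _ h2 h12
      set l := max p.2 p'.2 + 1
      obtain ⟨y, hy, hyok, hyG⟩ := ext l (X l ∩ (Nb c n p.1 ∩ Nb c n p'.1)) inter_subset_left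
        (hg l (by omega) (by omega))
      exact ⟨(y, l), hyok, hyG, fun _ _ _ => ⟨hy.2.1, hy.2.2⟩⟩
    · obtain ⟨y, hy, hyok, hyG⟩ := ext 0 (X 0) subset_rfl (hX 0)
      exact ⟨(y, 0), hyok, hyG, fun h1 h2 h12 => (hcase ⟨h1, h2, h12⟩).elim⟩)
  have hinj : Function.Injective (fun ζ => (a ζ).1) := by
    intro x y hxy
    by_contra hne
    rcases lt_or_gt_of_ne hne with h | h
    · exact ((ha y).2.1 x h).1 hxy
    · exact ((ha x).2.1 y h).1 hxy.symm
  refine ⟨range (fun ζ => (a ζ).1), ?_, ?_⟩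
  · rw [mk_range_eq _ hinj, hW]
  · rintro _ ⟨η, rfl⟩ _ ⟨ξ, rfl⟩ hne
    have hηξ : η ≠ ξ := fun h => hne (by rw [h])
    refine le_antisymm (mk_set_le _) ?_
    -- the set of stages devoted to the pair
    let Z : Set W := {ζ | (e ζ).1 = (η, ξ) ∧ η < ζ ∧ ξ < ζ}
    have hZ : #K ≤ #Z := by
      by_contra hlt
      push Not at hlt
      let Z' : Set W := {ζ | (e ζ).1 = (η, ξ)}
      have hZ' : #Z' = #K := by
        rw [← hW]
        refine Cardinal.mk_congr ⟨fun z => (e z.1).2, fun w => ⟨e.symm ((η, ξ), w), by simp [Z']⟩,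
          ?_, ?_⟩
        · rintro ⟨z, hz⟩
          apply Subtype.ext
          simp only
          have : (e z).1 = (η, ξ) := hz
          rw [← this]
          exact e.symm_apply_apply z
        · intro w
          simp
      have hsub : Z' ⊆ Z ∪ (Set.Iio η ∪ {η}) ∪ (Set.Iio ξ ∪ {ξ}) := by
        intro z hz
        by_cases h1 : η < z
        · by_cases h2 : ξ < z
          · exact Or.inl (Or.inl ⟨hz, h1, h2⟩)
          · right
            rcases (not_lt.1 h2).lt_or_eq with h | h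
            · exact Or.inl h
            · exact Or.inr h
        · left; right
          rcases (not_lt.1 h1).lt_or_eq with h | h
          · exact Or.inl h
          · exact Or.inr h
      have hs : ∀ z : W, #(Set.Iio z ∪ {z} : Set W) < #K := by
        intro z
        refine (mk_union_le _ _).trans_lt (add_lt_of_lt hK.le (hIio z) ?_)
        rw [mk_singleton]; exact (one_lt_aleph0).trans hK
      have := (mk_le_mk_of_subset hsub).trans ((mk_union_le _ _).trans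
        (add_le_add_left (mk_union_le _ _) _))
      rw [hZ'] at this
      exact absurd this (not_le.2 (add_lt_of_lt hK.le (add_lt_of_lt hK.le hlt (hs _)) (hs _)))
    refine hZ.trans ?_
    rw [← mk_image_eq (s := Z) hinj]
    refine mk_le_mk_of_subset ?_
    rintro _ ⟨ζ, ⟨he, h1, h2⟩, rfl⟩
    have h := (ha ζ).2.2
    rw [he] at h
    exact ⟨⟨ζ, rfl⟩, h h1 h2 hηξ⟩

end main

/-- If a set `K` of uncountable cardinality carries a proper ideal, closed under unions of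
fewer than `#K` sets and containing all sets of size `< #K`, with a dense family of positive sets
in which decreasing `ω`-sequences have lower bounds, then `#K →_{hc,<3} (#K)²_ω`. -/
theorem result (K : Type u) (hK : ℵ₀ < #K) (I D : Set (Set K)) (hI : IsCompleteUniformIdeal I)
    (hD : IsSigmaClosedDense I D) : HCLT K 3 := by
  intro c
  obtain ⟨n, X, hXD, hX⟩ := sequences hI hD hK c
  obtain ⟨A, hA, hAA⟩ := build hI hK c n X (fun k => hD.pos _ (hXD k)) (by
    intro k S hS hpos l hlk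
    obtain ⟨d, hd, hdS⟩ := hD.dense S hpos
    refine hI.down _ (hX l k hlk d hd (hdS.trans hS)) _ ?_
    rintro a ⟨ha, ha'⟩
    exact ⟨ha, hI.down _ ha' _ (inter_subset_inter_left _ hdS)⟩)
  refine ⟨A, n, hA, fun C hCA hC a ha b hb => ?_⟩
  by_cases hab : a = b
  · subst hab
    refine ⟨0, by norm_num, fun _ => a, rfl, rfl, fun _ _ => ha, fun j hj => by omega⟩
  · have hcard := hAA a ha.1 b hb.1 hab
    have hne : ∃ x ∈ A ∩ (Nb c n a ∩ Nb c n b), x ∉ C := by
      by_contra hcon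
      push Not at hcon
      have := mk_le_mk_of_subset (show A ∩ (Nb c n a ∩ Nb c n b) ⊆ C from hcon)
      rw [hcard] at this
      exact absurd hC (not_lt.2 this)
    obtain ⟨x, ⟨hxA, hxa, hxb⟩, hxC⟩ := hne
    refine ⟨2, by norm_num, fun k => if k = 0 then a else if k = 1 then x else b, by simp,
      by simp, ?_, ?_⟩
    · intro k _
      by_cases h0 : k = 0
      · simpa [h0] using ha
      · by_cases h1 : k = 1
        · simpa [h1] using ⟨hxA, hxC⟩
        · simpa [h0, h1] using hb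
    · intro j hj
      have hxb' := Nb_symm hxb
      interval_cases j
      · simpa using (show a ≠ x ∧ c s(a, x) = n from hxa)
      · simpa using (show x ≠ b ∧ c s(x, b) = n from hxb')

end Pool.Agent.Results.MP_54de64_lc.CompleteIdealPathsOfLengthTwo
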