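import Mathlib
import Pool.Agent.helper59.HC.Final

set_option autoImplicit false

/-!
# Consistency of `ℵ₂ →_{hc,<3} (ℵ₂)²_ω`

Assume that there is a measurable cardinal `κ`. Then there is a countable model `(M, E)` of ZFC in
which `ℵ₂ →_{hc,<3} (ℵ₂)²_ω` holds.

The model is obtained by forcing over the universe of sets (over Lean's `Type`) with the Levy
collapse `Coll(ω₁, <κ)`: the countable partial functions `p` from `κ × ω₁` to `κ` with
`p (a, w) < a`. This poset is countably closed and has the `κ`-chain condition, so in the
extension `ω₁` is preserved and `κ` is the next cardinal, `ω₂`.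

The combinatorial part is in `Pool.Agent.helper59.HC.Core`. Let `U` be a normal ultrafilter on `κ`
and let `c` be a name for a colouring of the pairs from `κ` by natural numbers. Using countable
closure one finds a colour `n`, a condition `r`, and functions `X₀, X₁, …` from `κ` to the poset
(where `X k α` only concerns the coordinates `≥ α`), such that for all `j, l < k`, below `r`, for
almost all `α` and `β`, no matter how `X j α` and `X l β` are extended, one can connect `α` and `β`
in colour `n` with almost all `γ` by conditions below `X k γ`. Then `r` forces that
`A = {α ∈ Y : X k α is in the generic filter for some k}` (for a suitable `Y ∈ U`) is as required: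
any two of its points have `κ` many common neighbours in `A` in colour `n`.
-/

namespace Pool.Agent.Results.MP_54de64_lc.ConsistencyFromMeasurable

open Pool.Agent.helper57.Fc Pool.Agent.helper59.HC

/-- If there is a measurable cardinal, then there is a countable model `(M, E)` of ZFC with
elements `w`, `l`, `k` such that, in `(M, E)`: `w = ω`, `l` is the least cardinal greater than
`w` (so `l = ℵ₁`), `k` is the least cardinal greater than `l` (so `k = ℵ₂`), and
`k →_{hc,<3} (k)²_ω`. -/
theorem result (κ : Cardinal.{0}) (hκ : IsMeasurable κ) :
    ∃ (M : Type) (E : M → M → Prop), Countable M ∧ IsZFC E ∧ ∃ w l k : M,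
      Sem.IsOmega E w ∧ Sem.NextCard E w l ∧ Sem.NextCard E l k ∧ Sem.HC3 E k w :=
  exists_hc_model hκ

end Pool.Agent.Results.MP_54de64_lc.ConsistencyFromMeasurable
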